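import Pool.Agent.H.MP_193109_an.A

open Filter Topology Metric Set MeasureTheory

namespace Pool.Agent.Results.MP_193109_an.Moduli

def Inner (Θ : ℂ → ℂ) : Prop :=
  DifferentiableOn ℂ Θ (ball 0 1) ∧ (∃ M, ∀ z ∈ ball (0 : ℂ) 1, ‖Θ z‖ ≤ M) ∧ ∀ᵐ θ : ℝ, ∃ w : ℂ, ‖w‖ = 1 ∧
    Tendsto (fun r : ℝ => Θ (r * Complex.exp (θ * Complex.I))) (𝓝[<] 1) (𝓝 w)

def B (ω : ℝ → ℝ) (f : ℂ → ℂ) : Prop :=
  DifferentiableOn ℂ f (ball 0 1) ∧ ∃ C > 0, ∃ r ∈ Ioo (0 : ℝ) 1, ∀ z : ℂ, r < ‖z‖ → ‖z‖ < 1 →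
    (1 - ‖z‖) * ‖deriv f z‖ ≤ C * ω (1 - ‖z‖)

def Fn (ω : ℝ → ℝ) (f Θ : ℂ → ℂ) (ε : ℝ) : Prop :=
  ∃ C, ∀ z : ℂ, 0 < ‖z‖ → ‖z‖ < 1 → ‖Θ z‖ < ε → ‖f z‖ / ω (1 - ‖z‖) ≤ C

def P (ω : ℝ → ℝ) : Prop :=
  ∀ f Θ : ℂ → ℂ, B ω f → Inner Θ →
    List.TFAE [B ω (f * Θ), ∃ ε ∈ Ioo (0 : ℝ) 1, Fn ω f Θ ε, ∀ ε ∈ Ioo (0 : ℝ) 1, Fn ω f Θ ε]

open Pool.Agent.H.MP_3bea3b_an Pool.Agent.H.MP_193109_an

theorem result (ω : ℝ → ℝ) (_hc : ContinuousOn ω (Ioo 0 1)) (hm : MonotoneOn ω (Ioo 0 1))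
    (hp : ∀ t ∈ Ioo (0 : ℝ) 1, 0 < ω t) :
    P ω ↔ ∃ C > 0, (∀ s t, 0 < s → s ≤ t → t ≤ 1 / 2 → ω t / t ≤ C * (ω s / s)) ∧
      ∀ t ∈ Ioc (0 : ℝ) (1 / 2), ∫⁻ s in Ioo 0 t, ENNReal.ofReal (ω s / s) ≤ ENNReal.ofReal (C * ω t) := by
  have hW := mo hm hp
  have b : ∀ f, DifferentiableOn ℂ f (ball 0 1) → (B ω f ↔ Bw (fun t => ω (min t (1 / 2))) f) := fun f d =>
    ⟨fun ⟨_, C, C0, r, r1, h⟩ => (tr hm hp (S := fun _ => True) (ContinuousOn.mul (by fun_prop)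
      (d.deriv isOpen_ball).continuousOn.norm) C0 r1.2 fun z a b _ => h z a b).imp
        fun C h => ⟨h.1, fun z hz => h.2 z hz trivial⟩,
    fun ⟨C, C0, h⟩ => ⟨d, (tr2 hm hp (S := fun _ => True) ⟨C, C0, fun z hz _ => h z hz⟩).imp fun C h =>
      ⟨h.1, 1 / 2, ⟨one_half_pos, one_half_lt_one⟩, fun z a b => h.2 z (one_half_pos.trans a) b trivial⟩⟩⟩
  have t : ∀ f Θ ε, DifferentiableOn ℂ f (ball 0 1) →
      (Fn ω f Θ ε ↔ Tw (fun t => ω (min t (1 / 2))) f Θ ε) := fun f Θ ε d =>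
    ⟨fun ⟨C, h⟩ => tr hm hp d.continuousOn.norm (C := |C| + 1) (by positivity) one_pos fun z a b e =>
      (div_le_iff₀ (hp _ ⟨by linarith, by linarith⟩)).1 ((h z a b e).trans (by linarith [le_abs_self C])),
    fun h => (tr2 hm hp h).imp fun C h z a b e =>
      (div_le_iff₀ (hp _ ⟨by linarith, by linarith⟩)).2 (h.2 z a b e)⟩
  constructor
  · intro h
    have pw : ∀ f Θ, DifferentiableOn ℂ f (ball 0 1) → Bw (fun t => ω (min t (1 / 2))) f →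
        DifferentiableOn ℂ Θ (ball 0 1) → (∀ z ∈ ball (0 : ℂ) 1, ‖Θ z‖ ≤ 1) → Rad Θ →
        Tw (fun t => ω (min t (1 / 2))) f Θ (1 / 200) → Bw (fun t => ω (min t (1 / 2))) (f * Θ) ∧
          Tw (fun t => ω (min t (1 / 2))) f Θ (31251 / 31252) := fun f Θ f1 f3 a1 a2 a3 e => by
      have q := h f Θ ((b f f1).2 f3) ⟨a1, ⟨1, a2⟩, a3⟩
      have e1 : ∃ ε ∈ Ioo (0 : ℝ) 1, Fn ω f Θ ε := ⟨_, by norm_num, (t f Θ _ f1).2 e⟩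
      have q1 : B ω (f * Θ) := (q.out 1 0).1 e1
      have q2 : ∀ ε ∈ Ioo (0 : ℝ) 1, Fn ω f Θ ε := (q.out 1 2).1 e1
      exact ⟨(b _ q1.1).1 q1, (t f Θ _ f1).1 (q2 _ (by norm_num))⟩
    have h0 : ∀ c, 0 < c → ∃ t, 0 < t ∧ ω (min t (1 / 2)) < c := fun c c0 => by
      by_contra! k
      obtain ⟨F, Θ, f1, ⟨C, f2⟩, a1, a2, a3, ⟨D, f3⟩, f4⟩ := bloch
      have g : ∀ (x M : ℝ), ∀ z ∈ ball (0 : ℂ) 1, x ≤ M → x ≤ |M| / c * ω (min (1 - ‖z‖) (1 / 2)) :=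
        fun x M z hz e => by
          rw [div_mul_eq_mul_div, le_div_iff₀ c0]
          exact mul_le_mul (e.trans (le_abs_self M)) (k _ (sub_pos.2 (mem_ball_zero_iff.1 hz))) c0.le
            (abs_nonneg M)
      obtain ⟨A, A0, hA⟩ := (pw F Θ f1 ⟨_, by positivity, fun z hz => g _ _ z hz (f2 z hz)⟩ a1 a2 a3
        ⟨_, by positivity, fun z hz e => g _ _ z hz (f3 z hz e)⟩).2
      obtain ⟨z, hz, e1, e2⟩ := f4 (A * ω (1 / 2))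
      exact e2.not_ge ((hA z hz e1).trans (mul_le_mul_of_nonneg_left (hm (mm (sub_pos.2
        (mem_ball_zero_iff.1 hz))) (by norm_num) (min_le_right _ _)) A0))
    have pw : PW fun t => ω (min t (1 / 2)) := fun f Θ f1 _ => pw f Θ f1
    obtain ⟨C, hC⟩ := adm hW pw h0
    obtain ⟨l, l0, l1, hl⟩ := geom hW pw h0
    refine ⟨max C (2 / l), lt_max_of_lt_right (by positivity), fun s u s0 s1 u1 => ?_, fun u hu =>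
      (di2 hm hp l0 l1 hl hu.1 hu.2).trans (ENNReal.ofReal_le_ofReal (mul_le_mul_of_nonneg_right
        (le_max_right _ _) (hp u ⟨hu.1, by linarith [hu.2]⟩).le))⟩
    have := hC s u s0 s1 (by linarith)
    simp only [min_eq_left u1, min_eq_left (s1.trans u1)] at this
    refine le_trans ?_ (mul_le_mul_of_nonneg_right (le_max_left _ _) (div_pos (hp s ⟨s0, by linarith⟩) s0).le)
    rw [← mul_div_assoc, div_le_div_iff₀ (s0.trans_le s1) s0]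
    linarith
  rintro ⟨C, C0, h1, h2⟩ f Θ f1 ⟨a1, ⟨N, hN⟩, a2⟩
  have ad := ad1 hp h1
  obtain ⟨l, l0, l1, hl⟩ := di1 hm hp C0 h2
  have a3 := fun z => le1 a1 hN a2 (z := z)
  have i := f1.1.mul a1
  have f2 := (b f f1.1).1 f1
  obtain ⟨M, hM⟩ := bdd hW ad l0 l1 hl f1.1 f2
  obtain ⟨L, L0, hL⟩ := lip hW ad l0 l1 hl f1.1 hM f2
  tfae_have 1 → 3 := fun h ε e => by
    obtain ⟨L', L1, hL'⟩ := lip hW ad l0 l1 hl i (fun z hz => norm_mul_le_of_le (hM z hz) (hN z hz))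
      ((b _ i).1 h)
    exact (t f Θ ε f1.1).2 (dirA hW ad a2 a3 hM L0 L1 hL hL' e.2)
  tfae_have 3 → 2 := fun h => ⟨1 / 2, by norm_num, h _ (by norm_num)⟩
  tfae_have 2 → 1 := fun ⟨ε, e, h⟩ => (b _ i).2 (dirB hW ad a2 a1 a3 f1.1 hM f2 L0 hL e.1 ((t f Θ ε f1.1).1 h))
  tfae_finish

end Pool.Agent.Results.MP_193109_an.Moduli
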